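import Mathlib

/-!
# Frobenius on the second cohomology of the surfaces of degree `d` in space: definitions
-/

set_option autoImplicit false

namespace J6H2.SF

open MvPolynomial Module

/-- The number of solutions of `f = 0` in `L³`. -/
noncomputable def zeros {F : Type} [Field F] (L : Type) [Field L] [Algebra F L]
    (f : MvPolynomial (Fin 3) F) : ℕ :=
  Nat.card {x : Fin 3 → L // aeval x f = 0}

/-- The polynomials in three variables of degree at most `d`: the equations of the surfaces of
degree at most `d` in affine three-space (or, after homogenization, in projective three-space). -/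
def surfaces (F : Type) [Field F] (d : ℕ) : Set (MvPolynomial (Fin 3) F) :=
  {f | f.totalDegree ≤ d}

/-- Frobenius on the second cohomology of the surface `f = 0`. For a smooth surface `X` in
projective space with smooth plane section `C` at infinity: `V` is the primitive part of
`H²(X, ℚ_l)`, with coefficients embedded in `ℂ` (the complement of the line spanned by the class of
a plane section), `Φ` is the Frobenius of `F` on `V`, and `B` are the eigenvalues of Frobenius on
`H¹(C)`. -/
structure SurfaceModule (F : Type) [Field F] (f : MvPolynomial (Fin 3) F) where
  /-- the primitive part of the second cohomology -/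
  V : Type
  [grp : AddCommGroup V]
  [mod : Module ℂ V]
  [fin : FiniteDimensional ℂ V]
  /-- Frobenius -/
  Φ : End ℂ V
  /-- the eigenvalues on the first cohomology of the curve at infinity -/
  B : Multiset ℂ
  /-- Weil's bound on the surface -/
  weight : ∀ z : ℂ, Φ.HasEigenvalue z → ‖z‖ = Nat.card F
  /-- Weil's bound on the curve -/
  small : ∀ z ∈ B, ‖z‖ ^ 2 ≤ Nat.card F
  /-- the trace formula, over all finite extensions `L` of `F` -/
  formula : ∀ (L : Type) [Field L] [Algebra F L] [FiniteDimensional F L],
    LinearMap.trace ℂ V (Φ ^ finrank F L) + (B.map fun z => z ^ finrank F L).sum =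
      (zeros L f : ℂ) - (Nat.card F : ℂ) ^ (2 * finrank F L)

attribute [instance] SurfaceModule.grp SurfaceModule.mod SurfaceModule.fin

end J6H2.SF
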