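import Pool.Agent.J6H2.SF.Defs

/-!
# Frobenius on the second cohomology of the surfaces of degree `d` in space: definitions
-/

set_option autoImplicit false

namespace J6H2.SFD

open MvPolynomial Module J6H2.SF

/-- `tr Φ^n + ∑_{z ∈ B} z^n`. -/
noncomputable def traceSum {V : Type} [AddCommGroup V] [Module ℂ V] (Φ : End ℂ V)
    (B : Multiset ℂ) (n : ℕ) : ℂ :=
  LinearMap.trace ℂ V (Φ ^ n) + (B.map fun z => z ^ n).sum

/-- Frobenius on the second cohomology of the surface `f = 0`. For a smooth surface `X` in
projective space with smooth plane section `C` at infinity: `V` is the primitive part of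
`H²(X, ℚ_l)`, with coefficients embedded in `ℂ` (the complement of the line spanned by the class of
a plane section), `Φ` is the Frobenius of `F` on `V`, and `B` are the eigenvalues of Frobenius on
`H¹(C)`. -/
structure SurfaceModule (F : Type) [Field F] (f : MvPolynomial (Fin 3) F) where
  /-- the primitive part of the second cohomology -/
  V : Type
  [grp : AddCommGroup V]
  [mod : Module ℂ V]
  [fin : FiniteDimensional ℂ V]
  /-- Frobenius -/
  Φ : End ℂ V
  /-- the eigenvalues on the first cohomology of the curve at infinity -/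
  B : Multiset ℂ
  /-- Weil's bound on the surface -/
  weight : ∀ z : ℂ, Φ.HasEigenvalue z → ‖z‖ = Nat.card F
  /-- Weil's bound on the curve -/
  small : ∀ z ∈ B, ‖z‖ ^ 2 ≤ Nat.card F
  /-- the trace formula, over all finite extensions `L` of `F` -/
  formula : ∀ (L : Type) [Field L] [Algebra F L] [FiniteDimensional F L],
    traceSum Φ B (finrank F L) = (zeros L f : ℂ) - (Nat.card F : ℂ) ^ (2 * finrank F L)

attribute [instance] SurfaceModule.grp SurfaceModule.mod SurfaceModule.fin

/-- The multiplicity of `z`: the dimension of the generalized eigenspace. -/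
noncomputable def SurfaceModule.mult {F : Type} [Field F] {f : MvPolynomial (Fin 3) F}
    (M : SurfaceModule F f) (z : ℂ) : ℕ :=
  finrank ℂ (M.Φ.maxGenEigenspace z)

/-- `(Φ - z)^k` vanishes on the generalized eigenspace of `z`: the Jordan blocks for `z` have size
at most `k`. -/
def SurfaceModule.Kills {F : Type} [Field F] {f : MvPolynomial (Fin 3) F}
    (M : SurfaceModule F f) (z : ℂ) (k : ℕ) : Prop :=
  ∀ (m : ℕ) (v : M.V), ((M.Φ - z • (1 : End ℂ M.V)) ^ m) v = 0 →
    ((M.Φ - z • (1 : End ℂ M.V)) ^ k) v = 0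

/-- All multiplicities and all Jordan blocks are at most `x`. -/
def SurfaceModule.Bounded {F : Type} [Field F] {f : MvPolynomial (Fin 3) F}
    (M : SurfaceModule F f) (x : ℝ) : Prop :=
  ∀ z : ℂ, (M.mult z : ℝ) ≤ x ∧ ∀ k : ℕ, x ≤ k → M.Kills z k

/-- A set of surfaces of degree at most `d`, with `dim V ≤ b` and `#B ≤ b'`. -/
structure Surfaces (F : Type) [Field F] (d b b' : ℕ) where
  /-- the set of polynomials -/
  S : Set (MvPolynomial (Fin 3) F)
  /-- of degree at most `d` -/
  degree : S ⊆ surfaces F d
  /-- the cohomology -/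
  M : ∀ f ∈ S, SurfaceModule F f
  /-- the first Betti number bound -/
  dim_le : ∀ (f) (hf : f ∈ S), finrank ℂ (M f hf).V ≤ b
  /-- the second Betti number bound -/
  card_le : ∀ (f) (hf : f ∈ S), (M f hf).B.card ≤ b'

/-- All multiplicities and Jordan blocks are at most `x`, with a finite set `T` of exceptions, at most
`c` times the number of all polynomials of degree at most `d`. -/
def Surfaces.AlmostAll {F : Type} [Field F] {d b b' : ℕ} (𝓢 : Surfaces F d b b') (c x : ℝ) :
    Prop :=
  ∃ T : Set (MvPolynomial (Fin 3) F), T ⊆ 𝓢.S ∧ T.Finite ∧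
    (T.ncard : ℝ) ≤ c * (surfaces F d).ncard ∧
    ∀ (f) (hf : f ∈ 𝓢.S), f ∉ T → (𝓢.M f hf).Bounded x

/-- The sum of the multiplicities of the `z f`. -/
noncomputable def Surfaces.total {F : Type} [Field F] {d b b' : ℕ} (𝓢 : Surfaces F d b b')
    (z : MvPolynomial (Fin 3) F → ℂ) : ℝ :=
  ∑ᶠ f : 𝓢.S, ((𝓢.M f.1 f.2).mult (z f.1) : ℝ)

end J6H2.SFD
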