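import Pool.Agent.J6H2.SF.Stm
import Pool.Agent.N181.Mod.LinA
import Pool.Agent.N430.RT.A2

/-!
The bound for a multiplicity from the Fejer kernel.
-/

set_option autoImplicit false

namespace J6H2.SF

open Module
open Pool.Agent.N430.RT (geo fejer)

private theorem lower (W : ℂ → ℝ) (hW : ∀ z, 0 ≤ W z) (a : ℂ) (R : Multiset ℂ) :
    (R.count a : ℝ) * W a ≤ (R.map W).sum := by
  classical
  induction R using Multiset.induction_on with
  | empty => simp
  | cons b R ih =>
    rw [Multiset.map_cons, Multiset.sum_cons, Multiset.count_cons]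
    have h1 := hW b
    split_ifs with h
    · subst h
      push_cast
      linarith
    · rw [add_zero]
      linarith

private theorem expand {lam : ℂ} (M : ℕ) (R : Multiset ℂ) (hR : ∀ z ∈ R, ‖z / lam‖ = 1) :
    (R.map fun z => ‖geo M (z / lam)‖ ^ 2).sum = ((M : ℝ) + 1) * (Multiset.card R : ℝ) +
      2 * ∑ n ∈ Finset.range M,
        ((M : ℝ) - n) * ((R.map fun z => z ^ (n + 1)).sum / lam ^ (n + 1)).re := by
  induction R using Multiset.induction_on with
  | empty => simp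
  | cons b R ih =>
    have h1 := ih (fun z hz => hR z (Multiset.mem_cons_of_mem hz))
    have h2 := fejer (hR b (Multiset.mem_cons_self _ _)) M
    rw [Multiset.map_cons, Multiset.sum_cons, h1, h2, Multiset.card_cons]
    simp only [Multiset.map_cons, Multiset.sum_cons, add_div, Complex.add_re, mul_add,
      Finset.sum_add_distrib, div_pow]
    push_cast
    ring

private theorem geom (M : ℕ) : ∑ n ∈ Finset.range M, (5 / 7 : ℝ) ^ (n + 1) ≤ 5 / 2 := by
  have h : ∑ n ∈ Finset.range M, (5 / 7 : ℝ) ^ (n + 1) = 5 / 2 * (1 - (5 / 7) ^ M) := by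
    induction M with
    | zero => simp
    | succ M ih =>
      rw [Finset.sum_range_succ, ih]
      ring
  rw [h]
  have : (0 : ℝ) ≤ (5 / 7) ^ M := by positivity
  linarith

private theorem smallB {q : ℝ} (hq : 2 ≤ q) (k : ℕ) (B : Multiset ℂ) (hB : ∀ z ∈ B, ‖z‖ ^ 2 ≤ q) :
    ‖(B.map fun z => z ^ k).sum‖ / q ^ k ≤ (Multiset.card B : ℝ) * (5 / 7) ^ k := by
  have hq0 : 0 < q := by linarith
  induction B using Multiset.induction_on with
  | empty => simp
  | cons b B ih =>
    have h1 := ih (fun z hz => hB z (Multiset.mem_cons_of_mem hz))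
    have h2 := hB b (Multiset.mem_cons_self _ _)
    rw [Multiset.map_cons, Multiset.sum_cons, Multiset.card_cons]
    have h3 : ‖b‖ / q ≤ 5 / 7 := by
      rw [div_le_iff₀ hq0]
      nlinarith [norm_nonneg b]
    have h4 : ‖b ^ k‖ / q ^ k ≤ (5 / 7) ^ k := by
      rw [norm_pow, ← div_pow]
      exact pow_le_pow_left₀ (by positivity) h3 k
    calc ‖b ^ k + (B.map fun z => z ^ k).sum‖ / q ^ k
        ≤ (‖b ^ k‖ + ‖(B.map fun z => z ^ k).sum‖) / q ^ k := by
          gcongr
          exact norm_add_le _ _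
      _ = ‖b ^ k‖ / q ^ k + ‖(B.map fun z => z ^ k).sum‖ / q ^ k := add_div _ _ _
      _ ≤ (5 / 7) ^ k + (Multiset.card B : ℝ) * (5 / 7) ^ k := add_le_add h4 h1
      _ = _ := by
          push_cast
          ring

theorem t_FEJ : S_FEJ := by
  intro V _ _ _ Φ B q E hq hw hB hE N lam hN
  classical
  have hq0 : 0 < q := by linarith
  have hroot : ∀ z ∈ Φ.charpoly.roots, ‖z‖ = q := by
    intro z hz
    apply hw
    rw [Module.End.hasEigenvalue_iff_isRoot_charpoly]
    exact Polynomial.isRoot_of_mem_roots hz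
  have hcount : (finrank ℂ (Φ.maxGenEigenspace lam) : ℝ) = Φ.charpoly.roots.count lam := by
    rw [LinearMap.finrank_maxGenEigenspace_eq, Polynomial.count_roots]
  have hcard : Multiset.card Φ.charpoly.roots = finrank ℂ V := by
    rw [IsAlgClosed.card_roots_eq_natDegree, LinearMap.charpoly_natDegree]
  have hnn : 0 ≤ (finrank ℂ V : ℝ) + 5 * Multiset.card B +
      2 * ∑ k ∈ Finset.Ico 1 N, ‖E k‖ / q ^ k := by
    have : 0 ≤ ∑ k ∈ Finset.Ico 1 N, ‖E k‖ / q ^ k :=
      Finset.sum_nonneg fun k _ => by positivity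
    positivity
  rw [hcount]
  by_cases h0 : Φ.charpoly.roots.count lam = 0
  · rw [h0]
    simpa using hnn
  have hmem : lam ∈ Φ.charpoly.roots := by
    rw [← Multiset.count_pos]
    omega
  have hlam : ‖lam‖ = q := hroot lam hmem
  have hlam0 : lam ≠ 0 := by
    rw [← norm_pos_iff, hlam]
    exact hq0
  obtain ⟨M, rfl⟩ : ∃ M, N = M + 1 := ⟨N - 1, by omega⟩
  have hEs : ∑ k ∈ Finset.Ico 1 (M + 1), ‖E k‖ / q ^ k =
      ∑ n ∈ Finset.range M, ‖E (n + 1)‖ / q ^ (n + 1) := by
    rw [Finset.sum_Ico_eq_sum_range]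
    simp [add_comm]
  rw [hEs]
  have h1 := lower (fun z => ‖geo M (z / lam)‖ ^ 2) (fun z => by positivity) lam Φ.charpoly.roots
  have h2 := expand (lam := lam) M Φ.charpoly.roots (fun z hz => by
    rw [norm_div, hroot z hz, hlam, div_self hq0.ne'])
  rw [h2, hcard] at h1
  have h3 : ‖geo M (lam / lam)‖ ^ 2 = ((M : ℝ) + 1) ^ 2 := by
    rw [div_self hlam0]
    unfold geo
    simp only [one_pow, Finset.sum_const, Finset.card_range, nsmul_eq_mul, mul_one]
    rw [Complex.norm_natCast]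
    push_cast
    ring
  simp only [h3] at h1
  have h4 : ∀ n ∈ Finset.range M, ((M : ℝ) - n) *
      ((Φ.charpoly.roots.map fun z => z ^ (n + 1)).sum / lam ^ (n + 1)).re ≤
      ((M : ℝ) + 1) * (‖E (n + 1)‖ / q ^ (n + 1) + (Multiset.card B : ℝ) * (5 / 7) ^ (n + 1)) := by
    intro n hn
    rw [Finset.mem_range] at hn
    have hnM : (n : ℝ) ≤ M := by exact_mod_cast hn.le
    have e1 : (Φ.charpoly.roots.map fun z => z ^ (n + 1)).sum =
        E (n + 1) - (B.map fun z => z ^ (n + 1)).sum := by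
      rw [← hE (n + 1) (by omega), Pool.Agent.N181.Mod.trace_pow_eq]
      ring
    have e2 : ((Φ.charpoly.roots.map fun z => z ^ (n + 1)).sum / lam ^ (n + 1)).re ≤
        ‖E (n + 1)‖ / q ^ (n + 1) + (Multiset.card B : ℝ) * (5 / 7) ^ (n + 1) := by
      refine (Complex.re_le_norm _).trans ?_
      rw [norm_div, norm_pow, hlam, e1]
      calc ‖E (n + 1) - (B.map fun z => z ^ (n + 1)).sum‖ / q ^ (n + 1)
          ≤ (‖E (n + 1)‖ + ‖(B.map fun z => z ^ (n + 1)).sum‖) / q ^ (n + 1) := by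
            gcongr
            exact norm_sub_le _ _
        _ = ‖E (n + 1)‖ / q ^ (n + 1) + ‖(B.map fun z => z ^ (n + 1)).sum‖ / q ^ (n + 1) :=
            add_div _ _ _
        _ ≤ _ := add_le_add le_rfl (smallB hq (n + 1) B hB)
    have e3 : 0 ≤ ‖E (n + 1)‖ / q ^ (n + 1) + (Multiset.card B : ℝ) * (5 / 7) ^ (n + 1) := by
      positivity
    have hn0 : (0 : ℝ) ≤ n := Nat.cast_nonneg n
    calc _ ≤ ((M : ℝ) - n) *
          (‖E (n + 1)‖ / q ^ (n + 1) + (Multiset.card B : ℝ) * (5 / 7) ^ (n + 1)) :=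
            mul_le_mul_of_nonneg_left e2 (by linarith)
      _ ≤ _ := mul_le_mul_of_nonneg_right (by linarith) e3
  have h5 := Finset.sum_le_sum h4
  rw [← Finset.mul_sum, Finset.sum_add_distrib, ← Finset.mul_sum] at h5
  have h6 := geom M
  have hM1 : (0 : ℝ) < (M : ℝ) + 1 := by positivity
  have hcB : (0 : ℝ) ≤ (Multiset.card B : ℝ) := Nat.cast_nonneg _
  have h7 : (Multiset.card B : ℝ) * ∑ n ∈ Finset.range M, (5 / 7 : ℝ) ^ (n + 1) ≤
      (Multiset.card B : ℝ) * (5 / 2) := mul_le_mul_of_nonneg_left h6 hcB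
  set S := ∑ n ∈ Finset.range M, ‖E (n + 1)‖ / q ^ (n + 1) with hS
  have h8 : ((M : ℝ) + 1) * (((M : ℝ) + 1) * (Φ.charpoly.roots.count lam : ℝ)) ≤
      ((M : ℝ) + 1) * ((finrank ℂ V : ℝ) + 5 * Multiset.card B + 2 * S) := by
    have h9 : ((M : ℝ) + 1) * (S + (Multiset.card B : ℝ) * ∑ n ∈ Finset.range M, (5 / 7 : ℝ) ^ (n + 1)) ≤
        ((M : ℝ) + 1) * (S + (Multiset.card B : ℝ) * (5 / 2)) :=
      mul_le_mul_of_nonneg_left (by linarith) hM1.le
    nlinarith [h1, h5, h9]
  have h10 := le_of_mul_le_mul_left h8 hM1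
  push_cast
  linarith

end J6H2.SF
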