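import Pool.Agent.J6H2.SF.Stm

/-! Module SF-GEN: images of polynomials of degree at most `d` fill the generated algebra. -/

set_option autoImplicit false

namespace J6H2.SF

open MvPolynomial Module

section

variable (F : Type) {B : Type} [Field F] [CommRing B] [Algebra F B]

/-- the image of the polynomials of degree at most `k` -/
noncomputable def Vk (x : Fin 3 → B) (k : ℕ) : Submodule F B :=
  (restrictTotalDegree (Fin 3) F k).map (aeval x).toLinearMap

theorem mem_Vk (x : Fin 3 → B) (k : ℕ) (b : B) :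
    b ∈ Vk F x k ↔ ∃ f : MvPolynomial (Fin 3) F, f.totalDegree ≤ k ∧ aeval x f = b := by
  unfold Vk
  rw [Submodule.mem_map]
  constructor
  · rintro ⟨f, hf, h⟩
    exact ⟨f, (mem_restrictTotalDegree _ _ _).1 hf, h⟩
  · rintro ⟨f, hf, h⟩
    exact ⟨f, (mem_restrictTotalDegree _ _ _).2 hf, h⟩

theorem Vk_mono (x : Fin 3 → B) (k : ℕ) : Vk F x k ≤ Vk F x (k + 1) := by
  intro b hb
  obtain ⟨f, hf, h⟩ := (mem_Vk F x k b).1 hb
  exact (mem_Vk F x (k + 1) b).2 ⟨f, hf.trans (Nat.le_succ k), h⟩

theorem one_mem_Vk (x : Fin 3 → B) (k : ℕ) (a : F) : algebraMap F B a ∈ Vk F x k :=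
  (mem_Vk F x k _).2 ⟨C a, by rw [totalDegree_C]; exact Nat.zero_le k, by rw [aeval_C]⟩

theorem mul_mem_Vk (x : Fin 3 → B) (k : ℕ) (b : B) (hb : b ∈ Vk F x k) (i : Fin 3) :
    b * x i ∈ Vk F x (k + 1) := by
  obtain ⟨f, hf, h⟩ := (mem_Vk F x k b).1 hb
  refine (mem_Vk F x (k + 1) _).2 ⟨f * X i, ?_, ?_⟩
  · refine (totalDegree_mul f (X i)).trans ?_
    have := totalDegree_X (R := F) i
    omega
  · rw [map_mul, h, aeval_X]

theorem Vk_le (x : Fin 3 → B) (k : ℕ) : Vk F x k ≤ Subalgebra.toSubmodule (gen F x) := by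
  intro b hb
  obtain ⟨f, -, h⟩ := (mem_Vk F x k b).1 hb
  rw [Subalgebra.mem_toSubmodule]
  unfold gen
  rw [Algebra.adjoin_range_eq_range_aeval]
  exact ⟨f, h⟩

theorem Vk_stab (x : Fin 3 → B) (k : ℕ) (h : Vk F x (k + 1) = Vk F x k) :
    Vk F x k = Subalgebra.toSubmodule (gen F x) := by
  refine le_antisymm (Vk_le F x k) ?_
  intro b hb
  rw [Subalgebra.mem_toSubmodule] at hb
  unfold gen at hb
  rw [Algebra.adjoin_range_eq_range_aeval] at hb
  obtain ⟨f, rfl⟩ := hb
  show aeval x f ∈ Vk F x k
  induction f using MvPolynomial.induction_on with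
  | C a =>
    rw [aeval_C]
    exact one_mem_Vk F x k a
  | add p q hp hq =>
    rw [map_add]
    exact Submodule.add_mem _ hp hq
  | mul_X p i hp =>
    rw [map_mul, aeval_X, ← h]
    exact mul_mem_Vk F x k _ hp i

end

theorem t_GEN : S_GEN := by
  intro F B _ _ _ _ x d hd b hb
  have hfr : finrank F (Subalgebra.toSubmodule (gen F x)) = finrank F (gen F x) := rfl
  have key : ∀ k : ℕ, min (k + 1) (finrank F (gen F x)) ≤ finrank F (Vk F x k) := by
    intro k
    induction k with
    | zero =>
      rcases Nat.eq_zero_or_pos (finrank F (gen F x)) with h0 | h0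
      · rw [h0]
        simp
      · refine (min_le_left _ _).trans ?_
        rw [zero_add, Nat.one_le_iff_ne_zero]
        intro h1
        have h2 : Vk F x 0 = ⊥ := Submodule.finrank_eq_zero.1 h1
        have h3 : (1 : B) ∈ Vk F x 0 := by
          have := one_mem_Vk F x 0 1
          rwa [map_one] at this
        rw [h2, Submodule.mem_bot] at h3
        have h4 : Subsingleton B := subsingleton_of_zero_eq_one h3.symm
        have h5 : Subsingleton (gen F x) := inferInstance
        rw [finrank_zero_of_subsingleton] at h0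
        exact lt_irrefl _ h0
    | succ k ih =>
      have h1 : finrank F (Vk F x k) ≤ finrank F (Vk F x (k + 1)) :=
        Submodule.finrank_mono (Vk_mono F x k)
      rcases h1.eq_or_lt with h2 | h2
      · have h3 := Submodule.eq_of_le_of_finrank_eq (Vk_mono F x k) h2
        have h4 := Vk_stab F x k h3.symm
        refine (min_le_right _ _).trans ?_
        rw [← h2, h4]
        exact le_of_eq hfr.symm
      · omega
  have h1 : finrank F (gen F x) ≤ finrank F (Vk F x d) := by
    have := key d
    rwa [min_eq_right hd] at this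
  have h2 : Vk F x d = Subalgebra.toSubmodule (gen F x) :=
    Submodule.eq_of_le_of_finrank_le (Vk_le F x d) (hfr.le.trans h1)
  rw [← mem_Vk, h2]
  exact hb

end J6H2.SF
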