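import Pool.Agent.J6H2.SF.Stm

/-! Assembly. -/

set_option autoImplicit false

namespace J6H2.SF

open MvPolynomial Module Finset

/-- extensions of every degree -/
theorem exists_ext (F : Type) [Field F] [Finite F] (n : ℕ) (hn : 1 ≤ n) :
    ∃ (L : Type) (_ : Field L) (_ : Algebra F L) (_ : FiniteDimensional F L),
      finrank F L = n := by
  obtain ⟨p, hp⟩ := CharP.exists F
  have hpp : Fact p.Prime := ⟨CharP.char_is_prime F p⟩
  have : NeZero n := ⟨by omega⟩
  exact ⟨FiniteField.Extension F p n, inferInstance, inferInstance, inferInstance,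
    FiniteField.finrank_extension F p n⟩

/-- the polynomials of bounded degree over a finite field form a finite set -/
theorem finite_surfaces (F : Type) [Field F] [Finite F] (d : ℕ) : (surfaces F d).Finite := by
  have h : (surfaces F d) ⊆ ((restrictTotalDegree (Fin 3) F d : Submodule F _) : Set _) := by
    intro f hf
    exact (mem_restrictTotalDegree (Fin 3) d f).mpr hf
  have : Finite (restrictTotalDegree (Fin 3) F d) := by
    exact Module.finite_of_finite F
  exact (Set.toFinite _).subset h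

theorem nilp {V : Type} [AddCommGroup V] [Module ℂ V] [FiniteDimensional ℂ V] (Φ : End ℂ V)
    (z : ℂ) (k : ℕ) (hk : finrank ℂ (Φ.maxGenEigenspace z) ≤ k) (m : ℕ) (v : V)
    (hv : ((Φ - z • (1 : End ℂ V)) ^ m) v = 0) : ((Φ - z • (1 : End ℂ V)) ^ k) v = 0 := by
  set g := Φ - z • (1 : End ℂ V) with hg
  have hmem : ∀ w : V, w ∈ Φ.maxGenEigenspace z ↔ ∃ m : ℕ, (g ^ m) w = 0 := by
    intro w
    rw [Module.End.mem_maxGenEigenspace]
  have hst : ∀ w ∈ Φ.maxGenEigenspace z, g w ∈ Φ.maxGenEigenspace z := by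
    intro w hw
    obtain ⟨m, hm⟩ := (hmem w).mp hw
    refine (hmem _).mpr ⟨m, ?_⟩
    rw [← Module.End.mul_apply, ← pow_succ, pow_succ', Module.End.mul_apply, hm, map_zero]
  set h : End ℂ (Φ.maxGenEigenspace z) := g.restrict hst with hh
  have hpow : ∀ (m : ℕ) (w : Φ.maxGenEigenspace z), ((h ^ m) w : V) = (g ^ m) w := by
    intro m
    induction m with
    | zero => intro w; simp
    | succ m ih =>
      intro w
      rw [pow_succ, pow_succ, Module.End.mul_apply, Module.End.mul_apply, ih]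
      rfl
  have hvW : v ∈ Φ.maxGenEigenspace z := (hmem v).mpr ⟨m, hv⟩
  have h1 : (⟨v, hvW⟩ : Φ.maxGenEigenspace z) ∈ LinearMap.ker (h ^ m) := by
    rw [LinearMap.mem_ker]
    apply Subtype.ext
    rw [hpow]
    exact hv
  have h2 := Module.End.ker_pow_le_ker_pow_finrank h m h1
  rw [LinearMap.mem_ker] at h2
  have h3 : (g ^ finrank ℂ (Φ.maxGenEigenspace z)) v = 0 := by
    have := congrArg Subtype.val h2
    rw [hpow] at this
    exact this
  obtain ⟨j, rfl⟩ := Nat.exists_eq_add_of_le hk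
  rw [add_comm, pow_add, Module.End.mul_apply, h3, map_zero]

variable {F : Type} [Field F] [Finite F]

/-- the error terms -/
noncomputable def err (F : Type) [Field F] [Finite F] (f : MvPolynomial (Fin 3) F) (n : ℕ) : ℝ :=
  if hn : 1 ≤ n then
    let L := (exists_ext F n hn).choose
    let _ := (exists_ext F n hn).choose_spec.choose
    let _ := (exists_ext F n hn).choose_spec.choose_spec.choose
    |(zeros L f : ℝ) - (Nat.card F : ℝ) ^ (2 * n)|
  else 0

theorem err_nonneg (f : MvPolynomial (Fin 3) F) (n : ℕ) : 0 ≤ err F f n := by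
  unfold err
  split_ifs
  · exact abs_nonneg _
  · exact le_rfl

theorem sum_err (hMOM : S_MOM) (d n : ℕ) (hn : 1 ≤ n) (hd : 2 * n ≤ d + 1)
    (P : Finset (MvPolynomial (Fin 3) F)) (hP : ∀ f, f ∈ P ↔ f ∈ surfaces F d) :
    ∑ f ∈ P, err F f n ^ 2 ≤ 7 * n * (Nat.card F : ℝ) ^ (2 * n) * P.card := by
  have hs := (exists_ext F n hn).choose_spec.choose_spec.choose_spec.choose_spec
  let _ := (exists_ext F n hn).choose_spec.choose
  let _ := (exists_ext F n hn).choose_spec.choose_spec.choose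
  let _ := (exists_ext F n hn).choose_spec.choose_spec.choose_spec.choose
  have h := hMOM F (exists_ext F n hn).choose d (by rw [hs]; exact hd) P hP
  rw [hs] at h
  refine le_trans (le_of_eq ?_) h
  apply Finset.sum_congr rfl
  intro f _
  unfold err
  rw [dif_pos hn, sq_abs]

/-- the bound for one surface -/
theorem one (hFEJ : S_FEJ) (f : MvPolynomial (Fin 3) F) (M : SurfaceModule F f) {b b' : ℕ}
    (hb : finrank ℂ M.V ≤ b) (hb' : M.B.card ≤ b') {N : ℕ} (hN : 1 ≤ N) (lam : ℂ) :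
    (N : ℝ) * finrank ℂ (M.Φ.maxGenEigenspace lam) ≤
      b + 5 * b' + 2 * ∑ k ∈ Ico 1 N, err F f k / (Nat.card F : ℝ) ^ k := by
  have hq : (2 : ℝ) ≤ (Nat.card F : ℝ) := by
    have : 1 < Nat.card F := Finite.one_lt_card
    exact_mod_cast this
  have h := hFEJ M.V M.Φ M.B (Nat.card F)
    (fun k => LinearMap.trace ℂ M.V (M.Φ ^ k) + (M.B.map fun z => z ^ k).sum) hq M.weight M.small
    (fun _ _ => rfl) N lam hN
  refine h.trans ?_
  have hb1 : (finrank ℂ M.V : ℝ) ≤ b := by exact_mod_cast hb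
  have hb2 : (M.B.card : ℝ) ≤ b' := by exact_mod_cast hb'
  have hs : ∑ k ∈ Ico 1 N, ‖LinearMap.trace ℂ M.V (M.Φ ^ k) + (M.B.map fun z => z ^ k).sum‖ /
      (Nat.card F : ℝ) ^ k = ∑ k ∈ Ico 1 N, err F f k / (Nat.card F : ℝ) ^ k := by
    apply Finset.sum_congr rfl
    intro k hk
    have hk1 : 1 ≤ k := (Finset.mem_Ico.mp hk).1
    congr 1
    have hs := (exists_ext F k hk1).choose_spec.choose_spec.choose_spec.choose_spec
    let _ := (exists_ext F k hk1).choose_spec.choose
    let _ := (exists_ext F k hk1).choose_spec.choose_spec.choose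
    let _ := (exists_ext F k hk1).choose_spec.choose_spec.choose_spec.choose
    have hf := M.formula (exists_ext F k hk1).choose
    rw [hs] at hf
    rw [hf]
    unfold err
    rw [dif_pos hk1]
    have : ((zeros (exists_ext F k hk1).choose f : ℂ) - (Nat.card F : ℂ) ^ (2 * k)) =
        (((zeros (exists_ext F k hk1).choose f : ℝ) - (Nat.card F : ℝ) ^ (2 * k) : ℝ) : ℂ) := by
      push_cast
      rfl
    rw [this, Complex.norm_real, Real.norm_eq_abs]
  rw [hs]
  linarith

/-- the square of the sum of the errors, on average -/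
theorem sum_sq (hMOM : S_MOM) (d N : ℕ) (hd : 2 * N ≤ d + 1)
    (P : Finset (MvPolynomial (Fin 3) F)) (hP : ∀ f, f ∈ P ↔ f ∈ surfaces F d) :
    ∑ f ∈ P, (2 * ∑ k ∈ Ico 1 N, err F f k / (Nat.card F : ℝ) ^ k) ^ 2 ≤
      14 * (N : ℝ) ^ 3 * P.card := by
  have hq : (0 : ℝ) < (Nat.card F : ℝ) := by
    have : 1 < Nat.card F := Finite.one_lt_card
    exact_mod_cast (by omega : 0 < Nat.card F)
  have h1 : ∀ f : MvPolynomial (Fin 3) F,
      (2 * ∑ k ∈ Ico 1 N, err F f k / (Nat.card F : ℝ) ^ k) ^ 2 ≤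
        4 * N * ∑ k ∈ Ico 1 N, err F f k ^ 2 / (Nat.card F : ℝ) ^ (2 * k) := by
    intro f
    have h2 := sq_sum_le_card_mul_sum_sq (s := Ico 1 N)
      (f := fun k => err F f k / (Nat.card F : ℝ) ^ k)
    have h3 : ((Ico 1 N).card : ℝ) ≤ N := by
      rw [Nat.card_Ico]
      exact_mod_cast Nat.sub_le _ _
    have h4 : ∑ k ∈ Ico 1 N, (err F f k / (Nat.card F : ℝ) ^ k) ^ 2 =
        ∑ k ∈ Ico 1 N, err F f k ^ 2 / (Nat.card F : ℝ) ^ (2 * k) := by
      apply Finset.sum_congr rfl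
      intro k _
      rw [div_pow, ← pow_mul, mul_comm k 2]
    have h5 : 0 ≤ ∑ k ∈ Ico 1 N, err F f k ^ 2 / (Nat.card F : ℝ) ^ (2 * k) :=
      Finset.sum_nonneg fun k _ => by positivity
    rw [h4] at h2
    calc (2 * ∑ k ∈ Ico 1 N, err F f k / (Nat.card F : ℝ) ^ k) ^ 2
        = 4 * (∑ k ∈ Ico 1 N, err F f k / (Nat.card F : ℝ) ^ k) ^ 2 := by ring
      _ ≤ 4 * (((Ico 1 N).card : ℝ) *
          ∑ k ∈ Ico 1 N, err F f k ^ 2 / (Nat.card F : ℝ) ^ (2 * k)) := by
          apply mul_le_mul_of_nonneg_left _ (by norm_num)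
          exact_mod_cast h2
      _ ≤ 4 * ((N : ℝ) * ∑ k ∈ Ico 1 N, err F f k ^ 2 / (Nat.card F : ℝ) ^ (2 * k)) := by
          apply mul_le_mul_of_nonneg_left _ (by norm_num)
          exact mul_le_mul_of_nonneg_right h3 h5
      _ = _ := by ring
  calc ∑ f ∈ P, (2 * ∑ k ∈ Ico 1 N, err F f k / (Nat.card F : ℝ) ^ k) ^ 2
      ≤ ∑ f ∈ P, 4 * N * ∑ k ∈ Ico 1 N, err F f k ^ 2 / (Nat.card F : ℝ) ^ (2 * k) :=
        Finset.sum_le_sum fun f _ => h1 f
    _ = 4 * N * ∑ k ∈ Ico 1 N, (∑ f ∈ P, err F f k ^ 2) / (Nat.card F : ℝ) ^ (2 * k) := by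
        rw [← Finset.mul_sum, Finset.sum_comm]
        congr 1
        apply Finset.sum_congr rfl
        intro k _
        rw [Finset.sum_div]
    _ ≤ 4 * N * ∑ k ∈ Ico 1 N, 7 * (k : ℝ) * P.card := by
        apply mul_le_mul_of_nonneg_left _ (by positivity)
        apply Finset.sum_le_sum
        intro k hk
        obtain ⟨hk1, hk2⟩ := Finset.mem_Ico.mp hk
        rw [div_le_iff₀ (by positivity)]
        have := sum_err hMOM d k hk1 (by omega) P hP
        linarith
    _ ≤ 14 * (N : ℝ) ^ 3 * P.card := by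
        have h6 : ∑ k ∈ Ico 1 N, (k : ℝ) ≤ (N : ℝ) ^ 2 / 2 := by
          have h7 : ∀ N : ℕ, ∑ k ∈ Ico 1 N, (k : ℝ) ≤ (N : ℝ) ^ 2 / 2 := by
            intro N
            induction N with
            | zero => simp
            | succ N ih =>
              rcases Nat.eq_zero_or_pos N with rfl | hN
              · simp
              · rw [Finset.sum_Ico_succ_top (by omega)]
                push_cast
                nlinarith
          exact h7 N
        have h8 : ∑ k ∈ Ico 1 N, 7 * (k : ℝ) * P.card = 7 * P.card * ∑ k ∈ Ico 1 N, (k : ℝ) := by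
          rw [Finset.mul_sum]
          apply Finset.sum_congr rfl
          intro k _
          ring
        rw [h8]
        have hN0 : (0 : ℝ) ≤ N := by positivity
        have hP0 : (0 : ℝ) ≤ P.card := by positivity
        calc 4 * (N : ℝ) * (7 * P.card * ∑ k ∈ Ico 1 N, (k : ℝ))
            ≤ 4 * (N : ℝ) * (7 * P.card * ((N : ℝ) ^ 2 / 2)) := by
              apply mul_le_mul_of_nonneg_left _ (by positivity)
              apply mul_le_mul_of_nonneg_left h6 (by positivity)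
          _ = _ := by ring

theorem main (hMOM : S_MOM) (hFEJ : S_FEJ) (d b b' N : ℕ) (hN : 1 ≤ N) (hd : 2 * N ≤ d + 1)
    (S : Set (MvPolynomial (Fin 3) F)) (hS : S ⊆ surfaces F d)
    (M : ∀ f ∈ S, SurfaceModule F f)
    (hb : ∀ (f) (hf : f ∈ S), finrank ℂ (M f hf).V ≤ b)
    (hb' : ∀ (f) (hf : f ∈ S), (M f hf).B.card ≤ b') :
    (∀ R : ℝ, 0 < R → ∃ T : Set (MvPolynomial (Fin 3) F), T ⊆ S ∧
      (T.ncard : ℝ) ≤ 14 * N / R ^ 2 * (surfaces F d).ncard ∧
      ∀ (f) (hf : f ∈ S), f ∉ T → ∀ lam : ℂ,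
        (finrank ℂ ((M f hf).Φ.maxGenEigenspace lam) : ℝ) < (b + 5 * b') / N + R ∧
        ∀ k : ℕ, (b + 5 * b') / N + R ≤ (k : ℝ) → ∀ (m : ℕ) (v : (M f hf).V),
          (((M f hf).Φ - lam • (1 : End ℂ (M f hf).V)) ^ m) v = 0 →
          (((M f hf).Φ - lam • (1 : End ℂ (M f hf).V)) ^ k) v = 0) ∧
    ∀ lam : MvPolynomial (Fin 3) F → ℂ,
      ∑ᶠ f : S, (finrank ℂ ((M f.1 f.2).Φ.maxGenEigenspace (lam f.1)) : ℝ) ≤
        ((b + 5 * b') / N + 4 * Real.sqrt N) * (surfaces F d).ncard := by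
  classical
  set P : Finset (MvPolynomial (Fin 3) F) := (finite_surfaces F d).toFinset with hPdef
  have hP : ∀ f, f ∈ P ↔ f ∈ surfaces F d := fun f => by simp [hPdef]
  have hPc : (P.card : ℝ) = (surfaces F d).ncard := by
    rw [Set.ncard_eq_toFinset_card _ (finite_surfaces F d)]
  have hN0 : (0 : ℝ) < N := by exact_mod_cast hN
  set e : MvPolynomial (Fin 3) F → ℝ :=
    fun f => 2 * ∑ k ∈ Ico 1 N, err F f k / (Nat.card F : ℝ) ^ k with he
  have he0 : ∀ f, 0 ≤ e f := by
    intro f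
    apply mul_nonneg (by norm_num)
    exact Finset.sum_nonneg fun k _ => div_nonneg (err_nonneg f k) (by positivity)
  have hsq := sum_sq hMOM d N hd P hP
  have hone : ∀ (f) (hf : f ∈ S) (lam : ℂ),
      (finrank ℂ ((M f hf).Φ.maxGenEigenspace lam) : ℝ) ≤ (b + 5 * b') / N + e f / N := by
    intro f hf lam
    have h := one hFEJ f (M f hf) (hb f hf) (hb' f hf) hN lam
    rw [← add_div, le_div_iff₀ hN0, mul_comm]
    exact h
  refine ⟨fun R hR => ?_, fun lam => ?_⟩
  · refine ⟨{f ∈ S | N * R ≤ e f}, fun f hf => hf.1, ?_, fun f hf hfT lam => ?_⟩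
    · have hT : ({f ∈ S | N * R ≤ e f}).ncard ≤ (P.filter fun f => N * R ≤ e f).card := by
        rw [← Set.ncard_coe_finset]
        apply Set.ncard_le_ncard _ (Finset.finite_toSet _)
        intro f hf
        simp only [Finset.coe_filter, Set.mem_ofPred_eq]
        exact ⟨(hP f).mpr (hS hf.1), hf.2⟩
      have h1 : ((P.filter fun f => N * R ≤ e f).card : ℝ) * (N * R) ^ 2 ≤ ∑ f ∈ P, e f ^ 2 := by
        calc ((P.filter fun f => N * R ≤ e f).card : ℝ) * (N * R) ^ 2
            = ∑ f ∈ P.filter (fun f => N * R ≤ e f), (N * R) ^ 2 := by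
              rw [Finset.sum_const, nsmul_eq_mul]
          _ ≤ ∑ f ∈ P.filter (fun f => N * R ≤ e f), e f ^ 2 := by
              apply Finset.sum_le_sum
              intro f hf
              exact pow_le_pow_left₀ (by positivity) (Finset.mem_filter.mp hf).2 2
          _ ≤ ∑ f ∈ P, e f ^ 2 :=
              Finset.sum_le_sum_of_subset_of_nonneg (Finset.filter_subset _ _)
                fun f _ _ => sq_nonneg _
      have h2 : ((P.filter fun f => N * R ≤ e f).card : ℝ) * (N * R) ^ 2 ≤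
          14 * (N : ℝ) ^ 3 * P.card := h1.trans hsq
      have h3 : (({f ∈ S | N * R ≤ e f}).ncard : ℝ) ≤
          ((P.filter fun f => N * R ≤ e f).card : ℝ) := by exact_mod_cast hT
      rw [← hPc]
      refine h3.trans ?_
      rw [div_mul_eq_mul_div, le_div_iff₀ (by positivity)]
      have h4 : ((P.filter fun f => N * R ≤ e f).card : ℝ) * R ^ 2 * (N : ℝ) ^ 2 ≤
          14 * N * P.card * (N : ℝ) ^ 2 := by nlinarith [h2]
      exact le_of_mul_le_mul_right h4 (by positivity)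
    · have h1 : e f < N * R := by
        by_contra h
        exact hfT ⟨hf, not_lt.mp h⟩
      have h2 : (finrank ℂ ((M f hf).Φ.maxGenEigenspace lam) : ℝ) < (b + 5 * b') / N + R := by
        refine lt_of_le_of_lt (hone f hf lam) ?_
        have : e f / N < R := by
          rw [div_lt_iff₀ hN0]
          linarith
        linarith
      refine ⟨h2, fun k hk m v hv => nilp _ lam k ?_ m v hv⟩
      have : (finrank ℂ ((M f hf).Φ.maxGenEigenspace lam) : ℝ) < k := lt_of_lt_of_le h2 hk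
      exact_mod_cast this.le
  · have hfin : S.Finite := (finite_surfaces F d).subset hS
    have : Fintype S := hfin.fintype
    rw [finsum_eq_sum_of_fintype]
    have hSP : (Fintype.card S : ℝ) ≤ P.card := by
      have h1 : hfin.toFinset ⊆ P := by
        intro f hf
        exact (hP f).mpr (hS (by simpa using hf))
      have h2 := Finset.card_le_card h1
      rw [← Set.ncard_eq_toFinset_card _ hfin, ← Nat.card_coe_set_eq,
        Nat.card_eq_fintype_card] at h2
      exact_mod_cast h2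
    have h1 : ∑ f : S, (finrank ℂ ((M f.1 f.2).Φ.maxGenEigenspace (lam f.1)) : ℝ) ≤
        ∑ f : S, ((b + 5 * b') / N + e f.1 / N : ℝ) :=
      Finset.sum_le_sum fun f _ => hone f.1 f.2 (lam f.1)
    have h2 : ∑ f : S, e f.1 ≤ ∑ f ∈ P, e f := by
      have h3 : ∑ f : S, e f.1 = ∑ f ∈ hfin.toFinset, e f := by
        rw [← Finset.sum_coe_sort hfin.toFinset e]
        apply Fintype.sum_equiv (Equiv.subtypeEquivRight (fun f => by simp))
        intro f
        rfl
      rw [h3]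
      apply Finset.sum_le_sum_of_subset_of_nonneg _ fun f _ _ => he0 f
      intro f hf
      exact (hP f).mpr (hS (by simpa using hf))
    have h3 : (∑ f ∈ P, e f) ^ 2 ≤ P.card * (14 * (N : ℝ) ^ 3 * P.card) :=
      (sq_sum_le_card_mul_sum_sq).trans (mul_le_mul_of_nonneg_left hsq (by positivity))
    have h4 : ∑ f ∈ P, e f ≤ 4 * N * Real.sqrt N * P.card := by
      apply le_of_sq_le_sq _ (by positivity)
      refine h3.trans ?_
      have h5 : Real.sqrt N ^ 2 = N := Real.sq_sqrt hN0.le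
      have h6 : (4 * N * Real.sqrt N * P.card : ℝ) ^ 2 = 16 * (N : ℝ) ^ 2 * (Real.sqrt N ^ 2) *
          (P.card : ℝ) ^ 2 := by ring
      rw [h6, h5]
      have : (0 : ℝ) ≤ (N : ℝ) ^ 3 * (P.card : ℝ) ^ 2 := by positivity
      nlinarith
    rw [← hPc]
    calc ∑ f : S, (finrank ℂ ((M f.1 f.2).Φ.maxGenEigenspace (lam f.1)) : ℝ)
        ≤ ∑ f : S, ((b + 5 * b') / N + e f.1 / N : ℝ) := h1
      _ = Fintype.card S * ((b + 5 * b') / N : ℝ) + (∑ f : S, e f.1) / N := by
          rw [Finset.sum_add_distrib, Finset.sum_const, nsmul_eq_mul, Finset.card_univ,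
            Finset.sum_div]
      _ ≤ P.card * ((b + 5 * b') / N : ℝ) + (4 * N * Real.sqrt N * P.card) / N := by
          apply add_le_add
          · exact mul_le_mul_of_nonneg_right hSP (by positivity)
          · exact div_le_div_of_nonneg_right (h2.trans h4) hN0.le
      _ = _ := by
          field_simp

/-- the bounds of smooth surfaces of degree `d` -/
theorem main2 (hMOM : S_MOM) (hFEJ : S_FEJ) (d : ℕ) (hd : 1 ≤ d)
    (S : Set (MvPolynomial (Fin 3) F)) (hS : S ⊆ surfaces F d)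
    (M : ∀ f ∈ S, SurfaceModule F f)
    (hb : ∀ (f) (hf : f ∈ S), finrank ℂ (M f hf).V ≤ d ^ 3)
    (hb' : ∀ (f) (hf : f ∈ S), (M f hf).B.card ≤ d ^ 2) :
    ∃ T : Set (MvPolynomial (Fin 3) F), T ⊆ S ∧
      (T.ncard : ℝ) ≤ 14 / (d : ℝ) ^ 3 * (surfaces F d).ncard ∧
      ∀ (f) (hf : f ∈ S), f ∉ T → ∀ lam : ℂ,
        finrank ℂ ((M f hf).Φ.maxGenEigenspace lam) ≤ 3 * d ^ 2 + 10 * d ∧
        ∀ (m : ℕ) (v : (M f hf).V),
          (((M f hf).Φ - lam • (1 : End ℂ (M f hf).V)) ^ m) v = 0 →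
          (((M f hf).Φ - lam • (1 : End ℂ (M f hf).V)) ^ (3 * d ^ 2 + 10 * d)) v = 0 := by
  have hN1 : 1 ≤ (d + 1) / 2 := by omega
  have hN2 : 2 * ((d + 1) / 2) ≤ d + 1 := by omega
  have hN3 : d ≤ 2 * ((d + 1) / 2) := by omega
  have hN4 : (d + 1) / 2 ≤ d := by omega
  set N := (d + 1) / 2 with hNdef
  have hd0 : (0 : ℝ) < d := by exact_mod_cast hd
  have hN0 : (0 : ℝ) < N := by exact_mod_cast hN1
  have hN3' : (d : ℝ) ≤ 2 * N := by exact_mod_cast hN3
  have hN4' : (N : ℝ) ≤ d := by exact_mod_cast hN4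
  obtain ⟨T, hTS, hTc, hT⟩ := (main hMOM hFEJ d (d ^ 3) (d ^ 2) N hN1 hN2 S hS M hb hb').1
    ((d : ℝ) ^ 2) (by positivity)
  have hbd : (((d ^ 3 : ℕ) : ℝ) + 5 * ((d ^ 2 : ℕ) : ℝ)) / N + (d : ℝ) ^ 2 ≤
      ((3 * d ^ 2 + 10 * d : ℕ) : ℝ) := by
    push_cast
    have h1 : ((d : ℝ) ^ 3 + 5 * (d : ℝ) ^ 2) / N ≤ 2 * (d : ℝ) ^ 2 + 10 * d := by
      rw [div_le_iff₀ hN0]
      have h2 : (0 : ℝ) ≤ (d : ℝ) ^ 2 + 5 * d := by positivity
      nlinarith [mul_le_mul_of_nonneg_left hN3' h2]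
    linarith
  refine ⟨T, hTS, hTc.trans ?_, fun f hf hfT lam => ?_⟩
  · apply mul_le_mul_of_nonneg_right _ (by positivity)
    rw [div_le_div_iff₀ (by positivity) (by positivity)]
    have : (0 : ℝ) ≤ 14 * (d : ℝ) ^ 3 := by positivity
    nlinarith [mul_le_mul_of_nonneg_left hN4' this]
  · obtain ⟨h1, h2⟩ := hT f hf hfT lam
    refine ⟨?_, fun m v hv => h2 _ hbd m v hv⟩
    have := (h1.trans_le hbd).le
    exact_mod_cast this

end J6H2.SF
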