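import Pool.Agent.J6H2.SF.Stm

set_option autoImplicit false

/-!
# The second moment of the number of zeros of a random polynomial
-/

namespace J6H2.SF

open MvPolynomial Module

theorem aeval_mem_gen {F B : Type} [Field F] [CommRing B] [Algebra F B] (x : Fin 3 → B) (f : MvPolynomial (Fin 3) F) :
    aeval x f ∈ gen F x := by
  unfold gen
  rw [Algebra.adjoin_range_eq_range_aeval]
  exact ⟨f, rfl⟩

/-- the number of the polynomials of degree at most `d` which vanish in a point -/
theorem count_fiber (hGEN : S_GEN) {F B : Type} [Field F] [CommRing B] [Algebra F B] [FiniteDimensional F B] [Finite B]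
    (x : Fin 3 → B) (d : ℕ) (hd : finrank F (gen F x) ≤ d + 1) (P : Finset (MvPolynomial (Fin 3) F))
    (hP : ∀ f, f ∈ P ↔ f ∈ surfaces F d) [DecidablePred fun f : MvPolynomial (Fin 3) F => aeval x f = 0] :
    (P.filter (fun f => aeval x f = 0)).card * Nat.card (gen F x) = P.card := by
  classical
  have : Fintype (gen F x) := Fintype.ofFinite _
  have hfib : ∀ b : gen F x, (P.filter (fun f => (⟨aeval x f, aeval_mem_gen x f⟩ : gen F x) = b)).card =
      (P.filter (fun f => aeval x f = 0)).card := by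
    intro b
    obtain ⟨g, hg, hgb⟩ := hGEN F B x d hd b.1 b.2
    refine Finset.card_bij' (fun f _ => f - g) (fun f _ => f + g) ?_ ?_ ?_ ?_
    · intro f hf
      rw [Finset.mem_filter] at hf ⊢
      obtain ⟨h1, h2⟩ := hf
      have h1' : f.totalDegree ≤ d := (hP f).1 h1
      refine ⟨(hP _).2 ?_, ?_⟩
      · exact (totalDegree_sub f g).trans (max_le h1' hg)
      · rw [map_sub, hgb, ← h2]
        simp
    · intro f hf
      rw [Finset.mem_filter] at hf ⊢
      obtain ⟨h1, h2⟩ := hf
      have h1' : f.totalDegree ≤ d := (hP f).1 h1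
      refine ⟨(hP _).2 ?_, ?_⟩
      · exact (totalDegree_add f g).trans (max_le h1' hg)
      · apply Subtype.ext
        show aeval x (f + g) = (b : B)
        rw [map_add, h2, hgb, zero_add]
    · intro f _
      simp
    · intro f _
      simp
  have h1 := Finset.card_eq_sum_card_fiberwise (s := P) (t := Finset.univ)
    (f := fun f => (⟨aeval x f, aeval_mem_gen x f⟩ : gen F x)) (fun f _ => Finset.mem_coe.2 (Finset.mem_univ _))
  rw [h1, Finset.sum_congr rfl fun b _ => hfib b, Finset.sum_const, smul_eq_mul, Finset.card_univ,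
    Nat.card_eq_fintype_card, mul_comm]

theorem aeval_pair {F L : Type} [Field F] [Field L] [Algebra F L] (x y : Fin 3 → L) (f : MvPolynomial (Fin 3) F) :
    aeval (pair x y) f = (aeval x f, aeval y f) := by
  have h1 : (AlgHom.fst F L L) (aeval (pair x y) f) = aeval x f := by
    rw [MvPolynomial.comp_aeval_apply]
    rfl
  have h2 : (AlgHom.snd F L L) (aeval (pair x y) f) = aeval y f := by
    rw [MvPolynomial.comp_aeval_apply]
    rfl
  exact Prod.ext h1 h2

open Classical in
theorem t_MOM (hGEN : S_GEN) (hPAIR : S_PAIR) (hSUM : S_SUM) : S_MOM := by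
  intro F L _ _ _ _ _ d hd P hP
  have hLfin : Finite L := Module.finite_of_finite F
  have : Fintype L := Fintype.ofFinite L
  set n := finrank F L with hn
  set q : ℝ := (Nat.card F : ℝ) with hq
  have hn1 : 1 ≤ n := Module.finrank_pos
  have hq1 : 1 ≤ q := by
    rw [hq]; exact_mod_cast Nat.card_pos
  -- the weights
  set c : (Fin 3 → L) → ℝ := fun x => (1 : ℝ) / Nat.card (gen F x) with hc
  set c2 : (Fin 3 → L) → (Fin 3 → L) → ℝ := fun x y => (1 : ℝ) / Nat.card (gen F (pair x y)) with hc2
  set M : ℝ := ∑ x, c x with hM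
  have hgpos : ∀ x : Fin 3 → L, (0 : ℝ) < Nat.card (gen F x) := fun x => by
    exact_mod_cast Nat.card_pos
  have hgpos2 : ∀ x y : Fin 3 → L, (0 : ℝ) < Nat.card (gen F (pair x y)) := fun x y => by
    exact_mod_cast Nat.card_pos
  have hc0 : ∀ x, 0 ≤ c x := fun x => by rw [hc]; positivity
  have hcard1 : ∀ x : Fin 3 → L, ((P.filter (fun f => aeval x f = 0)).card : ℝ) = P.card * c x := by
    intro x
    have h1 : finrank F (gen F x) ≤ d + 1 := by
      have : finrank F (gen F x) ≤ finrank F L := Submodule.finrank_le (Subalgebra.toSubmodule (gen F x))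
      omega
    have h2 := count_fiber hGEN x d h1 P hP
    rw [hc]
    simp only
    rw [mul_one_div, eq_div_iff (hgpos x).ne']
    exact_mod_cast h2
  have hcard2 : ∀ x y : Fin 3 → L, ((P.filter (fun f => aeval x f = 0 ∧ aeval y f = 0)).card : ℝ) = P.card * c2 x y := by
    intro x y
    have h1 : finrank F (gen F (pair x y)) ≤ d + 1 := by
      have h3 : finrank F (gen F (pair x y)) ≤ finrank F (L × L) :=
        Submodule.finrank_le (Subalgebra.toSubmodule (gen F (pair x y)))
      rw [Module.finrank_prod] at h3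
      omega
    have h2 := count_fiber hGEN (pair x y) d h1 P hP
    have h4 : (P.filter (fun f => aeval x f = 0 ∧ aeval y f = 0)).card * Nat.card (gen F (pair x y)) = P.card := by
      rw [← h2]
      congr 1
      refine congrArg Finset.card ?_
      ext f
      constructor
      · intro h
        refine Finset.mem_filter.2 ⟨(Finset.mem_filter.1 h).1, ?_⟩
        rw [aeval_pair]
        exact Prod.mk_eq_zero.2 (Finset.mem_filter.1 h).2
      · intro h
        refine Finset.mem_filter.2 ⟨(Finset.mem_filter.1 h).1, ?_⟩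
        have h5 : aeval (pair x y) f = 0 := (Finset.mem_filter.1 h).2
        rw [aeval_pair] at h5
        exact Prod.mk_eq_zero.1 h5
    rw [hc2]
    simp only
    rw [mul_one_div, eq_div_iff (hgpos2 x y).ne']
    exact_mod_cast h4
  have hzeros : ∀ f : MvPolynomial (Fin 3) F, (zeros L f : ℝ) = ∑ x : Fin 3 → L, if aeval x f = 0 then (1 : ℝ) else 0 := by
    intro f
    unfold zeros
    rw [Finset.sum_boole, Nat.card_eq_fintype_card, Fintype.card_subtype]
  -- first moment
  have hm1 : ∑ f ∈ P, (zeros L f : ℝ) = P.card * M := by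
    simp_rw [hzeros]
    rw [Finset.sum_comm, hM, Finset.mul_sum]
    refine Finset.sum_congr rfl fun x _ => ?_
    rw [Finset.sum_boole, hcard1 x]
  -- second moment
  have hm2 : ∑ f ∈ P, (zeros L f : ℝ) ^ 2 = P.card * ∑ x, ∑ y, c2 x y := by
    have h1 : ∀ f : MvPolynomial (Fin 3) F, (zeros L f : ℝ) ^ 2 =
        ∑ x : Fin 3 → L, ∑ y : Fin 3 → L, if aeval x f = 0 ∧ aeval y f = 0 then (1 : ℝ) else 0 := by
      intro f
      rw [sq, hzeros, Finset.sum_mul_sum]
      refine Finset.sum_congr rfl fun x _ => Finset.sum_congr rfl fun y _ => ?_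
      by_cases h2 : aeval x f = 0 <;> by_cases h3 : aeval y f = 0 <;> simp [h2, h3]
    simp_rw [h1]
    rw [Finset.sum_comm, Finset.mul_sum]
    refine Finset.sum_congr rfl fun x _ => ?_
    rw [Finset.sum_comm, Finset.mul_sum]
    refine Finset.sum_congr rfl fun y _ => ?_
    rw [Finset.sum_boole, hcard2 x y]
  have hbound : ∑ x, ∑ y, c2 x y ≤ M ^ 2 + n * M := by
    have h1 : ∀ x, ∑ y, c2 x y ≤ c x * M + n * c x := by
      intro x
      obtain ⟨h2, h3⟩ := hPAIR F L x
      have h4 : ∀ y, c2 x y ≤ c x * c y +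
          (if Nat.card (gen F (pair x y)) ≠ Nat.card (gen F x) * Nat.card (gen F y) then c x else 0) := by
        intro y
        split
        · rename_i h5
          have h6 : c2 x y ≤ c x := by
            rw [hc, hc2]
            simp only
            refine one_div_le_one_div_of_le (hgpos x) ?_
            exact_mod_cast h2 y
          have h7 := mul_nonneg (hc0 x) (hc0 y)
          linarith
        · rename_i h5
          rw [not_not] at h5
          have h6 : c2 x y = c x * c y := by
            rw [hc, hc2]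
            simp only
            rw [h5]
            push_cast
            rw [one_div_mul_one_div]
          rw [h6, add_zero]
      refine (Finset.sum_le_sum fun y _ => h4 y).trans ?_
      rw [Finset.sum_add_distrib, ← Finset.mul_sum, ← Finset.sum_filter, Finset.sum_const, nsmul_eq_mul]
      have h8 : ((Finset.univ.filter (fun y : Fin 3 → L =>
          Nat.card (gen F (pair x y)) ≠ Nat.card (gen F x) * Nat.card (gen F y))).card : ℝ) ≤ n := by
        rw [Nat.card_eq_fintype_card, Fintype.card_subtype] at h3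
        exact_mod_cast h3
      have := mul_le_mul_of_nonneg_right h8 (hc0 x)
      linarith
    refine (Finset.sum_le_sum fun x _ => h1 x).trans ?_
    rw [Finset.sum_add_distrib, ← Finset.sum_mul, ← Finset.mul_sum, ← hM]
    exact le_of_eq (by ring)
  obtain ⟨hM1, hM2⟩ := hSUM F L
  have hM1' : q ^ (2 * n) ≤ M := hM1
  have hM2' : M ≤ q ^ (2 * n) + 2 * q ^ n := hM2
  have hR1 : 1 ≤ q ^ n := one_le_pow₀ hq1
  have hQ : q ^ (2 * n) = (q ^ n) ^ 2 := by rw [← pow_mul, mul_comm]
  set R : ℝ := q ^ n with hR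
  have hn1' : (1 : ℝ) ≤ n := by exact_mod_cast hn1
  have hPc : (0 : ℝ) ≤ P.card := by positivity
  have hexp : ∑ f ∈ P, ((zeros L f : ℝ) - q ^ (2 * n)) ^ 2 =
      ∑ f ∈ P, (zeros L f : ℝ) ^ 2 - 2 * q ^ (2 * n) * ∑ f ∈ P, (zeros L f : ℝ) + q ^ (2 * n) ^ 1 * q ^ (2 * n) * P.card := by
    rw [Finset.mul_sum, ← Finset.sum_sub_distrib]
    have : q ^ (2 * n) ^ 1 * q ^ (2 * n) * (P.card : ℝ) = ∑ f ∈ P, q ^ (2 * n) * q ^ (2 * n) := by
      rw [Finset.sum_const, nsmul_eq_mul, pow_one]; ring
    rw [this, ← Finset.sum_add_distrib]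
    refine Finset.sum_congr rfl fun f _ => ?_
    ring
  rw [hexp, hm1, hm2, hQ, pow_one, hQ]
  rw [hQ] at hM1' hM2'
  have h9 : (P.card : ℝ) * ∑ x, ∑ y, c2 x y ≤ P.card * (M ^ 2 + n * M) := mul_le_mul_of_nonneg_left hbound hPc
  have h10 : M ^ 2 + n * M - 2 * R ^ 2 * M + R ^ 2 * R ^ 2 ≤ 7 * n * R ^ 2 := by
    have h11 : (M - R ^ 2) ^ 2 ≤ (2 * R) ^ 2 := pow_le_pow_left₀ (by linarith) (by linarith) 2
    have h12 : (n : ℝ) * M ≤ n * (R ^ 2 + 2 * R) := mul_le_mul_of_nonneg_left hM2' (by linarith)
    have h13 : R ≤ R ^ 2 := by nlinarith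
    have h14 : (n : ℝ) * (R ^ 2 + 2 * R) ≤ n * (3 * R ^ 2) := mul_le_mul_of_nonneg_left (by linarith) (by linarith)
    have h15 : 4 * R ^ 2 ≤ 4 * n * R ^ 2 := by nlinarith [sq_nonneg R]
    nlinarith
  have h16 := mul_le_mul_of_nonneg_left h10 hPc
  calc (P.card : ℝ) * ∑ x, ∑ y, c2 x y - 2 * R ^ 2 * (P.card * M) + R ^ 2 * R ^ 2 * P.card
      ≤ P.card * (M ^ 2 + n * M) - 2 * R ^ 2 * (P.card * M) + R ^ 2 * R ^ 2 * P.card := by linarith
    _ = P.card * (M ^ 2 + n * M - 2 * R ^ 2 * M + R ^ 2 * R ^ 2) := by ring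
    _ ≤ P.card * (7 * n * R ^ 2) := h16
    _ = 7 * n * R ^ 2 * P.card := by ring

end J6H2.SF
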