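import Pool.Agent.J6H2.SF.Stm

/-! Module PAIR: the algebra generated by the coordinates of two points over a finite field. -/

set_option autoImplicit false

namespace J6H2.SF

open MvPolynomial Module

private theorem gen_map_fst (F L : Type) [Field F] [Field L] [Algebra F L] (x y : Fin 3 → L) :
    (gen F (pair x y)).map (AlgHom.fst F L L) = gen F x := by
  rw [gen, gen, AlgHom.map_adjoin]
  congr 1
  rw [← Set.range_comp]
  rfl

private theorem gen_map_snd (F L : Type) [Field F] [Field L] [Algebra F L] (x y : Fin 3 → L) :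
    (gen F (pair x y)).map (AlgHom.snd F L L) = gen F y := by
  rw [gen, gen, AlgHom.map_adjoin]
  congr 1
  rw [← Set.range_comp]
  rfl

private theorem fst_mem (F L : Type) [Field F] [Field L] [Algebra F L] (x y : Fin 3 → L)
    (z : L × L) (hz : z ∈ gen F (pair x y)) : z.1 ∈ gen F x := by
  rw [← gen_map_fst F L x y]
  exact ⟨z, hz, rfl⟩

private theorem snd_mem (F L : Type) [Field F] [Field L] [Algebra F L] (x y : Fin 3 → L)
    (z : L × L) (hz : z ∈ gen F (pair x y)) : z.2 ∈ gen F y := by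
  rw [← gen_map_snd F L x y]
  exact ⟨z, hz, rfl⟩

private theorem exists_fst (F L : Type) [Field F] [Field L] [Algebra F L] (x y : Fin 3 → L)
    (a : L) (ha : a ∈ gen F x) : ∃ b, (a, b) ∈ gen F (pair x y) := by
  rw [← gen_map_fst F L x y] at ha
  obtain ⟨z, hz, rfl⟩ := ha
  exact ⟨z.2, hz⟩

private theorem exists_snd (F L : Type) [Field F] [Field L] [Algebra F L] (x y : Fin 3 → L)
    (b : L) (hb : b ∈ gen F y) : ∃ a, (a, b) ∈ gen F (pair x y) := by
  rw [← gen_map_snd F L x y] at hb
  obtain ⟨z, hz, rfl⟩ := hb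
  exact ⟨z.1, hz⟩

private theorem card_prod (F L : Type) [Field F] [Field L] [Algebra F L] [Finite L]
    (x y : Fin 3 → L) (b : L) (hb : b ≠ 0) (h : ((0 : L), b) ∈ gen F (pair x y)) :
    Nat.card (gen F (pair x y)) = Nat.card (gen F x) * Nat.card (gen F y) := by
  classical
  haveI : Fintype L := Fintype.ofFinite L
  have h1 : ((0 : L), (1 : L)) ∈ gen F (pair x y) := by
    have h2 := (gen F (pair x y)).pow_mem h (Fintype.card L - 1)
    have h3 : 0 < Fintype.card L - 1 := by
      have := Fintype.one_lt_card (α := L)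
      omega
    have e : ((0 : L), b) ^ (Fintype.card L - 1) = ((0 : L), (1 : L)) := by
      rw [Prod.pow_mk, FiniteField.pow_card_sub_one_eq_one b hb, zero_pow h3.ne']
    rwa [e] at h2
  have h10 : ((1 : L), (0 : L)) ∈ gen F (pair x y) := by
    have := (gen F (pair x y)).sub_mem (gen F (pair x y)).one_mem h1
    have e : (1 : L × L) - ((0 : L), (1 : L)) = ((1 : L), (0 : L)) := by
      ext <;> simp
    rwa [e] at this
  have hall : ∀ a ∈ gen F x, ∀ b ∈ gen F y, (a, b) ∈ gen F (pair x y) := by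
    intro a ha b hb
    obtain ⟨b', hb'⟩ := exists_fst F L x y a ha
    obtain ⟨a', ha'⟩ := exists_snd F L x y b hb
    have m1 := (gen F (pair x y)).mul_mem hb' h10
    have m2 := (gen F (pair x y)).mul_mem ha' h1
    have m3 := (gen F (pair x y)).add_mem m1 m2
    have e : (a, b') * ((1 : L), (0 : L)) + (a', b) * ((0 : L), (1 : L)) = (a, b) := by
      ext <;> simp
    rwa [e] at m3
  rw [← Nat.card_prod]
  refine Nat.card_congr (Equiv.ofBijective
    (fun z : gen F (pair x y) => ((⟨z.1.1, fst_mem F L x y z.1 z.2⟩ : gen F x),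
      (⟨z.1.2, snd_mem F L x y z.1 z.2⟩ : gen F y))) ⟨?_, ?_⟩)
  · intro z z' hzz
    rw [Prod.mk.injEq, Subtype.mk.injEq, Subtype.mk.injEq] at hzz
    exact Subtype.ext (Prod.ext hzz.1 hzz.2)
  · rintro ⟨⟨a, ha⟩, ⟨b, hb⟩⟩
    exact ⟨⟨(a, b), hall a ha b hb⟩, rfl⟩

private theorem self_mem (F B : Type) [Field F] [CommRing B] [Algebra F B] (x : Fin 3 → B)
    (i : Fin 3) : x i ∈ gen F x := Algebra.subset_adjoin ⟨i, rfl⟩

private theorem exists_hom (F L : Type) [Field F] [Field L] [Algebra F L] (x y : Fin 3 → L)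
    (h : ∀ b, ((0 : L), b) ∈ gen F (pair x y) → b = 0) :
    ∃ φ : gen F x →ₐ[F] L, ∀ i, φ ⟨x i, self_mem F L x i⟩ = y i := by
  let π : gen F (pair x y) →ₐ[F] gen F x :=
    ((AlgHom.fst F L L).comp (gen F (pair x y)).val).codRestrict (gen F x)
      (fun z => fst_mem F L x y z.1 z.2)
  have hπ : Function.Bijective π := by
    constructor
    · rw [injective_iff_map_eq_zero]
      rintro ⟨⟨a, b⟩, hz⟩ h0
      have ha : a = 0 := congrArg Subtype.val h0
      subst ha
      have hb := h b hz
      subst hb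
      rfl
    · rintro ⟨a, ha⟩
      obtain ⟨b, hb⟩ := exists_fst F L x y a ha
      exact ⟨⟨(a, b), hb⟩, rfl⟩
  let e := AlgEquiv.ofBijective π hπ
  refine ⟨((AlgHom.snd F L L).comp (gen F (pair x y)).val).comp e.symm.toAlgHom, ?_⟩
  intro i
  have he : e ⟨pair x y i, self_mem F (L × L) (pair x y) i⟩ = ⟨x i, self_mem F L x i⟩ := rfl
  have hs : e.symm ⟨x i, self_mem F L x i⟩ = ⟨pair x y i, self_mem F (L × L) (pair x y) i⟩ := by
    rw [← he, AlgEquiv.symm_apply_apply]
  show (AlgHom.snd F L L) ((gen F (pair x y)).val (e.symm ⟨x i, self_mem F L x i⟩)) = y i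
  rw [hs]
  rfl

theorem t_PAIR : S_PAIR := by
  intro F L _ _ _ _ x
  haveI : Finite (L × L) := inferInstance
  refine ⟨?_, ?_⟩
  · intro y
    refine Nat.card_le_card_of_surjective
      (fun z : gen F (pair x y) => (⟨z.1.1, fst_mem F L x y z.1 z.2⟩ : gen F x)) ?_
    rintro ⟨a, ha⟩
    obtain ⟨b, hb⟩ := exists_fst F L x y a ha
    exact ⟨⟨(a, b), hb⟩, rfl⟩
  · haveI : Module.Finite F L := Module.Finite.of_finite
    haveI : Module.Finite F (gen F x) := Module.Finite.of_finite
    have key : ∀ y : {y : Fin 3 → L //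
        Nat.card (gen F (pair x y)) ≠ Nat.card (gen F x) * Nat.card (gen F y)},
        ∃ φ : gen F x →ₐ[F] L, ∀ i, φ ⟨x i, self_mem F L x i⟩ = y.1 i := by
      rintro ⟨y, hy⟩
      refine exists_hom F L x y ?_
      intro b hb
      by_contra hne
      exact hy (card_prod F L x y b hne hb)
    choose φ hφ using key
    have hinj : Function.Injective φ := by
      intro y y' hyy
      refine Subtype.ext (funext fun i => ?_)
      rw [← hφ y i, ← hφ y' i, hyy]
    calc _ ≤ Nat.card (gen F x →ₐ[F] L) := Nat.card_le_card_of_injective φ hinj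
      _ ≤ finrank F (gen F x) := card_algHom_le_finrank F (gen F x) L
      _ ≤ finrank F L := Submodule.finrank_le (Subalgebra.toSubmodule (gen F x))

end J6H2.SF
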