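import Pool.Agent.J6H2.SF.Stm

/-!
# SF-SUM (module of helper2's project SF, written by helper27)

The sum over the points of `L³` of the inverse of the number of elements of the field generated by
the coordinates.
-/

set_option autoImplicit false

namespace J6H2.SF

open MvPolynomial Module

namespace SumAux

variable (F L : Type) [Field F] [Field L] [Algebra F L] [Finite L]

/-- The number of elements of the algebra generated by a point. -/
theorem point (x : Fin 3 → L) : ∃ m : ℕ, 1 ≤ m ∧ Nat.card (gen F x) = Nat.card F ^ m ∧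
    m ≤ finrank F L ∧
    (m = finrank F L ∨ (2 * m ≤ finrank F L ∧ ∀ i, x i ^ (Nat.card F ^ m) = x i)) := by
  classical
  have : Finite F := Finite.of_injective (algebraMap F L) (algebraMap F L).injective
  have hK : (IntermediateField.adjoin F (Set.range x)).toSubalgebra = gen F x :=
    IntermediateField.adjoin_toSubalgebra (F := F) (E := L) (Set.range x)
  obtain ⟨K, hKdef⟩ : ∃ K, K = IntermediateField.adjoin F (Set.range x) := ⟨_, rfl⟩
  rw [← hKdef] at hK
  have hc : Nat.card (gen F x) = Nat.card K := by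
    rw [← hK]
    rfl
  have hcK : Nat.card K = Nat.card F ^ finrank F K := Module.natCard_eq_pow_finrank
  have hmul : finrank F K * finrank K L = finrank F L := Module.finrank_mul_finrank F K L
  have hKpos : 0 < finrank F K := finrank_pos
  have hLpos : 0 < finrank K L := finrank_pos
  refine ⟨finrank F K, hKpos, hc.trans hcK, ?_, ?_⟩
  · rw [← hmul]
    exact Nat.le_mul_of_pos_right _ hLpos
  · by_cases h1 : finrank K L = 1
    · left
      rw [← hmul, h1, mul_one]
    · right
      refine ⟨?_, fun i => ?_⟩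
      · rw [← hmul, mul_comm]
        exact Nat.mul_le_mul_left _ (by omega)
      · have hi : x i ∈ K := by
          rw [hKdef]
          exact IntermediateField.subset_adjoin F (Set.range x) ⟨i, rfl⟩
        let _ : Fintype K := Fintype.ofFinite K
        have h2 := FiniteField.pow_card (⟨x i, hi⟩ : K)
        have h3 : Fintype.card K = Nat.card F ^ finrank F K := by
          rw [← Nat.card_eq_fintype_card, hcK]
        rw [h3] at h2
        exact congrArg Subtype.val h2

/-- The number of solutions of `t ^ Q = t`. -/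
theorem card_fixed [Fintype L] [DecidableEq L] (Q : ℕ) (hQ : 1 < Q) :
    (Finset.univ.filter (fun t : L => t ^ Q = t)).card ≤ Q := by
  have h1 : Finset.univ.filter (fun t : L => t ^ Q = t) ⊆
      (Polynomial.X ^ Q - Polynomial.X : Polynomial L).roots.toFinset := by
    intro t ht
    rw [Multiset.mem_toFinset, Polynomial.mem_roots (FiniteField.X_pow_card_sub_X_ne_zero L hQ)]
    have h2 := (Finset.mem_filter.1 ht).2
    simp [Polynomial.IsRoot, h2]
  calc (Finset.univ.filter (fun t : L => t ^ Q = t)).card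
      ≤ (Polynomial.X ^ Q - Polynomial.X : Polynomial L).roots.toFinset.card :=
        Finset.card_le_card h1
    _ ≤ Multiset.card (Polynomial.X ^ Q - Polynomial.X : Polynomial L).roots :=
        Multiset.toFinset_card_le _
    _ ≤ (Polynomial.X ^ Q - Polynomial.X : Polynomial L).natDegree := Polynomial.card_roots' _
    _ = Q := FiniteField.X_pow_card_sub_X_natDegree_eq L hQ

/-- geometric sum -/
theorem geo (q : ℝ) (hq : 2 ≤ q) (k : ℕ) :
    ∑ m ∈ Finset.Icc 1 k, q ^ (2 * m) ≤ 2 * q ^ (2 * k) := by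
  induction k with
  | zero => simp
  | succ k ih =>
    rw [Finset.sum_Icc_succ_top (by omega)]
    have h1 : 0 < q ^ (2 * k) := by positivity
    have h2 : q ^ (2 * (k + 1)) = q ^ 2 * q ^ (2 * k) := by ring
    rw [h2]
    have h3 : 4 ≤ q ^ 2 := by nlinarith
    nlinarith

end SumAux

/-- **SF-SUM.** -/
theorem t_SUM : S_SUM := by
  intro F L _ _ _ _ _
  classical
  have : Finite F := Finite.of_injective (algebraMap F L) (algebraMap F L).injective
  obtain ⟨q, hq⟩ : ∃ q, q = Nat.card F := ⟨_, rfl⟩
  obtain ⟨n, hn⟩ : ∃ n, n = finrank F L := ⟨_, rfl⟩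
  have hq2 : 2 ≤ q := by
    rw [hq]
    exact Finite.one_lt_card
  have hqR : (2 : ℝ) ≤ (q : ℝ) := by exact_mod_cast hq2
  have hq0 : (0 : ℝ) < (q : ℝ) := by linarith
  have hL : Fintype.card L = q ^ n := by
    rw [← Nat.card_eq_fintype_card, hq, hn]
    exact Module.natCard_eq_pow_finrank
  have hpts : (Finset.univ : Finset (Fin 3 → L)).card = (q ^ n) ^ 3 := by
    rw [Finset.card_univ, Fintype.card_pi_const, hL]
  rw [← hq, ← hn]
  have hpt := SumAux.point F L
  rw [← hq, ← hn] at hpt
  have hqn : (0 : ℝ) < (q : ℝ) ^ n := by positivity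
  constructor
  · have h1 : ∀ x : Fin 3 → L, (1 : ℝ) / (q : ℝ) ^ n ≤ 1 / (Nat.card (gen F x) : ℝ) := by
      intro x
      obtain ⟨m, _, hm, hmn, _⟩ := hpt x
      rw [hm]
      push_cast
      exact one_div_le_one_div_of_le (by positivity) (pow_le_pow_right₀ (by linarith) hmn)
    calc (q : ℝ) ^ (2 * n) = ∑ _x : Fin 3 → L, (1 : ℝ) / (q : ℝ) ^ n := by
          rw [Finset.sum_const, hpts, nsmul_eq_mul]
          push_cast
          field_simp
          ring
      _ ≤ _ := Finset.sum_le_sum fun x _ => h1 x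
  · have h1 : ∀ x : Fin 3 → L, (1 : ℝ) / (Nat.card (gen F x) : ℝ) ≤
        1 / (q : ℝ) ^ n + ∑ m ∈ Finset.Icc 1 (n / 2),
          (if ∀ i, x i ^ (q ^ m) = x i then (1 : ℝ) / (q : ℝ) ^ m else 0) := by
      intro x
      obtain ⟨m, hm1, hm, hmn, hcase⟩ := hpt x
      rw [hm]
      push_cast
      have hnn : ∀ k ∈ Finset.Icc 1 (n / 2),
          (0 : ℝ) ≤ (if ∀ i, x i ^ (q ^ k) = x i then (1 : ℝ) / (q : ℝ) ^ k else 0) := by
        intro k _
        split_ifs
        · positivity
        · exact le_refl _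
      rcases hcase with h | ⟨h2, h3⟩
      · rw [h]
        have := Finset.sum_nonneg hnn
        linarith
      · have hmem : m ∈ Finset.Icc 1 (n / 2) := by
          rw [Finset.mem_Icc]
          omega
        have h4 := Finset.single_le_sum hnn hmem
        rw [if_pos h3] at h4
        have h5 : (0 : ℝ) < 1 / (q : ℝ) ^ n := by positivity
        linarith
    have h2 : ∀ m ∈ Finset.Icc 1 (n / 2), ∑ x : Fin 3 → L,
        (if ∀ i, x i ^ (q ^ m) = x i then (1 : ℝ) / (q : ℝ) ^ m else 0) ≤ (q : ℝ) ^ (2 * m) := by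
      intro m hm
      have hm1 : 1 ≤ m := (Finset.mem_Icc.1 hm).1
      rw [← Finset.sum_filter, Finset.sum_const, nsmul_eq_mul]
      have h3 : (Finset.univ.filter (fun x : Fin 3 → L => ∀ i, x i ^ (q ^ m) = x i)) ⊆
          Fintype.piFinset (fun _ : Fin 3 => Finset.univ.filter (fun t : L => t ^ (q ^ m) = t)) := by
        intro x hx
        rw [Fintype.mem_piFinset]
        intro i
        exact Finset.mem_filter.2 ⟨Finset.mem_univ _, (Finset.mem_filter.1 hx).2 i⟩
      have h4 : (Finset.univ.filter (fun x : Fin 3 → L => ∀ i, x i ^ (q ^ m) = x i)).card ≤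
          (q ^ m) ^ 3 := by
        refine (Finset.card_le_card h3).trans ?_
        rw [Fintype.card_piFinset_const]
        exact Nat.pow_le_pow_left (SumAux.card_fixed L (q ^ m)
          (Nat.one_lt_pow (by omega) (by omega))) 3
      have h5 : ((Finset.univ.filter (fun x : Fin 3 → L => ∀ i, x i ^ (q ^ m) = x i)).card : ℝ) ≤
          ((q : ℝ) ^ m) ^ 3 := by exact_mod_cast h4
      calc ((Finset.univ.filter (fun x : Fin 3 → L => ∀ i, x i ^ (q ^ m) = x i)).card : ℝ)
            * (1 / (q : ℝ) ^ m) ≤ ((q : ℝ) ^ m) ^ 3 * (1 / (q : ℝ) ^ m) :=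
          mul_le_mul_of_nonneg_right h5 (by positivity)
        _ = (q : ℝ) ^ (2 * m) := by
          have h6 : (0 : ℝ) < (q : ℝ) ^ m := by positivity
          field_simp
          ring
    calc ∑ x : Fin 3 → L, (1 : ℝ) / (Nat.card (gen F x) : ℝ)
        ≤ ∑ x : Fin 3 → L, (1 / (q : ℝ) ^ n + ∑ m ∈ Finset.Icc 1 (n / 2),
          (if ∀ i, x i ^ (q ^ m) = x i then (1 : ℝ) / (q : ℝ) ^ m else 0)) :=
          Finset.sum_le_sum fun x _ => h1 x
      _ = (q : ℝ) ^ (2 * n) + ∑ m ∈ Finset.Icc 1 (n / 2), ∑ x : Fin 3 → L,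
          (if ∀ i, x i ^ (q ^ m) = x i then (1 : ℝ) / (q : ℝ) ^ m else 0) := by
          rw [Finset.sum_add_distrib, Finset.sum_comm, Finset.sum_const, hpts, nsmul_eq_mul]
          congr 1
          push_cast
          field_simp
          ring
      _ ≤ (q : ℝ) ^ (2 * n) + ∑ m ∈ Finset.Icc 1 (n / 2), (q : ℝ) ^ (2 * m) := by
          have := Finset.sum_le_sum h2
          linarith
      _ ≤ (q : ℝ) ^ (2 * n) + 2 * (q : ℝ) ^ (2 * (n / 2)) := by
          have := SumAux.geo (q : ℝ) hqR (n / 2)
          linarith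
      _ ≤ (q : ℝ) ^ (2 * n) + 2 * (q : ℝ) ^ n := by
          have : (q : ℝ) ^ (2 * (n / 2)) ≤ (q : ℝ) ^ n :=
            pow_le_pow_right₀ (by linarith) (by omega)
          linarith

end J6H2.SF
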