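import Pool.Agent.J6H2.SF.Main
import Pool.Agent.J6H2.SF.Defs2
import Pool.Agent.J6H2.SF.Gen
import Pool.Agent.J6H2.SF.Pair
import Pool.Agent.J6H2.SF.Sum
import Pool.Agent.J6H2.SF.Mom
import Pool.Agent.J6H2.SF.Fej

/-! Assembly, in terms of the definitions of the result. -/

set_option autoImplicit false

namespace J6H2.SFD

open MvPolynomial Module J6H2.SF

/-- the same data -/
noncomputable def SurfaceModule.toOld {F : Type} [Field F] {f : MvPolynomial (Fin 3) F}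
    (M : SurfaceModule F f) : J6H2.SF.SurfaceModule F f where
  V := M.V
  Φ := M.Φ
  B := M.B
  weight := M.weight
  small := M.small
  formula := M.formula

theorem res {F : Type} [Field F] [Finite F] {d b b' : ℕ} (hd : 1 ≤ d)
    (𝓢 : Surfaces F d b b') :
    (b ≤ d ^ 3 → b' ≤ d ^ 2 → 𝓢.AlmostAll (14 / (d : ℝ) ^ 3) (3 * d ^ 2 + 10 * d)) ∧
    ∀ N : ℕ, 1 ≤ N → 2 * N ≤ d + 1 →
      (∀ R : ℝ, 0 < R → 𝓢.AlmostAll (14 * N / R ^ 2) ((b + 5 * b') / N + R)) ∧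
      ∀ z : MvPolynomial (Fin 3) F → ℂ,
        𝓢.total z ≤ ((b + 5 * b') / N + 4 * Real.sqrt N) * (surfaces F d).ncard := by
  have hM := t_MOM t_GEN t_PAIR t_SUM
  refine ⟨fun hb hb' => ?_, fun N hN h2 => ⟨fun R hR => ?_, fun z => ?_⟩⟩
  · obtain ⟨T, hTS, hTc, hT⟩ := main2 hM t_FEJ d hd 𝓢.S 𝓢.degree (fun f hf => (𝓢.M f hf).toOld)
      (fun f hf => (𝓢.dim_le f hf).trans hb) (fun f hf => (𝓢.card_le f hf).trans hb')
    refine ⟨T, hTS, (finite_surfaces F d).subset (hTS.trans 𝓢.degree), hTc, fun f hf hfT z => ?_⟩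
    obtain ⟨h1, h2⟩ := hT f hf hfT z
    refine ⟨?_, fun k hk m v hv => ?_⟩
    · have : (((𝓢.M f hf).mult z : ℕ) : ℝ) ≤ ((3 * d ^ 2 + 10 * d : ℕ) : ℝ) := by
        exact_mod_cast h1
      push_cast at this
      exact this
    · have hk' : 3 * d ^ 2 + 10 * d ≤ k := by exact_mod_cast hk
      obtain ⟨j, rfl⟩ := Nat.exists_eq_add_of_le hk'
      have h3 := h2 m v hv
      rw [add_comm, pow_add, Module.End.mul_apply]
      have h4 : (((𝓢.M f hf).Φ - z • (1 : End ℂ (𝓢.M f hf).V)) ^ (3 * d ^ 2 + 10 * d)) v = 0 := h3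
      rw [h4, map_zero]
  · obtain ⟨T, hTS, hTc, hT⟩ := (main hM t_FEJ d b b' N hN h2 𝓢.S 𝓢.degree
      (fun f hf => (𝓢.M f hf).toOld) 𝓢.dim_le 𝓢.card_le).1 R hR
    refine ⟨T, hTS, (finite_surfaces F d).subset (hTS.trans 𝓢.degree), hTc, fun f hf hfT z => ?_⟩
    obtain ⟨h1, h2⟩ := hT f hf hfT z
    exact ⟨h1.le, fun k hk m v hv => h2 k hk m v hv⟩
  · exact (main hM t_FEJ d b b' N hN h2 𝓢.S 𝓢.degree
      (fun f hf => (𝓢.M f hf).toOld) 𝓢.dim_le 𝓢.card_le).2 z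

end J6H2.SFD
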