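import Pool.Agent.J6H2.SF.Defs

/-! Statements for the modules (auxiliary). -/

set_option autoImplicit false

namespace J6H2.SF

open MvPolynomial Module

/-- The algebra generated by the coordinates of a point. -/
abbrev gen (F : Type) {B : Type} [Field F] [CommRing B] [Algebra F B] (x : Fin 3 → B) :
    Subalgebra F B := Algebra.adjoin F (Set.range x)

/-- PROOF. Let `A = gen F x`, `V_k ⊆ A` the image of the polynomials of total degree `≤ k` under
`aeval x`. `V_0 = F·1`, `V_{k+1} ⊇ V_k + ∑ x_i V_k`. If `finrank V_{k+1} = finrank V_k` then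
`V_{k+1} = V_k` is stable under multiplication by the `x_i`, so equal to `A`. So
`finrank V_k ≥ min (k + 1) (finrank A)` by induction, and `V_d = A`. (If `A` is the zero ring: trivial.) -/
def S_GEN : Prop := ∀ (F B : Type) [Field F] [CommRing B] [Algebra F B] [FiniteDimensional F B]
  (x : Fin 3 → B) (d : ℕ), finrank F (gen F x) ≤ d + 1 →
    ∀ b ∈ gen F x, ∃ f : MvPolynomial (Fin 3) F, f.totalDegree ≤ d ∧ aeval x f = b

/-- The pair of two points. -/
def pair {L : Type} (x y : Fin 3 → L) : Fin 3 → L × L := fun i => (x i, y i)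

/-- PROOF. (1) the projection `gen (pair x y) → gen x` is surjective, so `card (gen x) ≤ card (gen (pair x y))`.
(2) Fix `x`. Let `m_x = ker (aeval x)`, a maximal ideal of `F[X,Y,Z]` (`gen x` is a finite domain, so a
field). If `m_x ≠ m_y` then `m_x + m_y = 1`, so `(1,0)` and `(0,1)` are in `gen (pair x y)`, so it is
`gen x × gen y` (`card` = product). So a `y` with `card ≠` product has `m_y = m_x`, so is `φ ∘ x` for an
`F`-algebra hom `φ : gen x → L` (`gen x ≃ F[X,Y,Z]/m_x`); there are at most `finrank F (gen x) ≤ finrank F L` such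
`φ` (`AlgHom.card_le` / `card_algHom_le_finrank`), so at most `finrank F L` such `y`. -/
def S_PAIR : Prop := ∀ (F L : Type) [Field F] [Field L] [Algebra F L] [Finite L]
  (x : Fin 3 → L), (∀ y : Fin 3 → L, Nat.card (gen F x) ≤ Nat.card (gen F (pair x y))) ∧
    Nat.card {y : Fin 3 → L //
      Nat.card (gen F (pair x y)) ≠ Nat.card (gen F x) * Nat.card (gen F y)} ≤ finrank F L

/-- PROOF. `q = Nat.card F`, `n = finrank F L`, `card L = q^n`. Lower bound: `card (gen x) ≤ q^n` and there are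
`q^(3n)` points. Upper bound: the `x` with `gen x = L` contribute at most `q^(3n)/q^n`. The others: `gen x` is a
subfield with `q^m` elements, `m ∣ n`, `m < n`, so `2 m ≤ n`, and its elements are roots of `T^(q^m) - T`, so
all such `x` have coordinates in a set of at most `q^m` elements: at most `q^(3m)` points, contribution at
most `q^(2m)`. Sum over `1 ≤ m ≤ n/2`: at most `2 q^n`. -/
def S_SUM : Prop := ∀ (F L : Type) [Field F] [Field L] [Algebra F L] [Finite L] [Fintype L],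
  (Nat.card F : ℝ) ^ (2 * finrank F L) ≤ ∑ x : Fin 3 → L, (1 : ℝ) / Nat.card (gen F x) ∧
  ∑ x : Fin 3 → L, (1 : ℝ) / Nat.card (gen F x) ≤
    (Nat.card F : ℝ) ^ (2 * finrank F L) + 2 * (Nat.card F : ℝ) ^ finrank F L

/-- PROOF (from `S_GEN`, `S_PAIR`, `S_SUM`). `P` = the finite set of polynomials of degree `≤ d`, `n = finrank F L`,
`2 n ≤ d + 1`. For `x : Fin 3 → L` the additive map `P → gen x`, `f ↦ aeval x f` is onto (`S_GEN`), so
`#{f ∈ P | f(x) = 0} = #P / card (gen x)`; for `x, y`: `#{f ∈ P | f(x) = f(y) = 0} = #P / card (gen (pair x y))`.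
With `M = ∑_x 1/card (gen x)`: `∑_f N_f = #P M`, `∑_f N_f^2 = #P ∑_{x,y} 1/card (gen (pair x y)) ≤ #P (M^2 + n M)`
(`S_PAIR`). So `∑_f (N_f - q^(2n))^2 ≤ #P ((M - q^(2n))^2 + n M) ≤ #P (4 q^(2n) + n (q^(2n) + 2 q^n)) ≤ 7 n q^(2n) #P`. -/
def S_MOM : Prop := ∀ (F L : Type) [Field F] [Finite F] [Field L] [Algebra F L]
  [FiniteDimensional F L] (d : ℕ), 2 * finrank F L ≤ d + 1 → ∀ P : Finset (MvPolynomial (Fin 3) F),
    (∀ f, f ∈ P ↔ f ∈ surfaces F d) →
    ∑ f ∈ P, ((zeros L f : ℝ) - (Nat.card F : ℝ) ^ (2 * finrank F L)) ^ 2 ≤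
      7 * finrank F L * (Nat.card F : ℝ) ^ (2 * finrank F L) * P.card

/-- PROOF. Fejer kernel: for `|u| = 1`, `1 + 2 Re ∑_{1 ≤ k < N} (1 - k/N) u^k ≥ 0`, and it is `N` for `u = 1` (the start
file `Pool.Agent.N430.RT.A2.fejer` may help). Sum over the eigenvalues `z` of `Φ` with multiplicity
(`trace (Φ^k)` = sum of the `z^k` over the roots of the charpoly) with `u = z / lam`, `|lam| = q`:
`N mult(lam) ≤ dim V + 2 Re ∑ (1 - k/N) lam^(-k) tr (Φ^k)`, `tr (Φ^k) = E k - ∑_B β^k`,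
`∑_k |β|^k / q^k ≤ ∑_{k≥1} 2^(-k/2) = 1/(√2 - 1) ≤ 2.5` for `q ≥ 2`. If `|lam| ≠ q` the generalized
eigenspace is zero. -/
def S_FEJ : Prop := ∀ (V : Type) [AddCommGroup V] [Module ℂ V] [FiniteDimensional ℂ V]
  (Φ : End ℂ V) (B : Multiset ℂ) (q : ℝ) (E : ℕ → ℂ), 2 ≤ q →
  (∀ z, Φ.HasEigenvalue z → ‖z‖ = q) → (∀ z ∈ B, ‖z‖ ^ 2 ≤ q) →
  (∀ k, 1 ≤ k → LinearMap.trace ℂ V (Φ ^ k) + (B.map fun z => z ^ k).sum = E k) →
  ∀ (N : ℕ) (lam : ℂ), 1 ≤ N →
    (N : ℝ) * finrank ℂ (Φ.maxGenEigenspace lam) ≤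
      finrank ℂ V + 5 * B.card + 2 * ∑ k ∈ Finset.Ico 1 N, ‖E k‖ / q ^ k

end J6H2.SF
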